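import Mathlib
import Pool.Agent.Q10.ETC3.Field
import Pool.Agent.Y620.ET.Res

set_option autoImplicit false

/-! # MP_2429c0_al: fields with small norm groups

The basic bound is `MP_d26ff6_al/CubicBound`: a finite quaternionic structure whose value groups
`V(a)`, `a ≠ 1`, satisfy `|V(a)| ^ 3 < |G|` is a group extension. -/

namespace Pool.Agent.Results.MP_2429c0_al.CubicBound

open Pool.Agent.H315R3.ETC Pool.Agent.TH188.ET Pool.Agent.Y920.ETC Pool.Agent.Q10.ETC3

/-- the group of squares of `F*` -/
def squares (F : Type) [Field F] : Subgroup Fˣ := (powMonoidHom 2 : Fˣ →* Fˣ).range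

/-- the group of the nonzero values of `x² - a y²`: the norm group of `F(√a)` if `a` is not a
square -/
def normGroup {F : Type} [Field F] (a : Fˣ) : Subgroup Fˣ where
  carrier := {c | ∃ x y : F, (c : F) = x ^ 2 - a * y ^ 2}
  one_mem' := (nG a).one_mem
  mul_mem' := (nG a).mul_mem
  inv_mem' := (nG a).inv_mem

/-- the number of classes modulo squares in the norm group of `a` -/
noncomputable def classes {F : Type} [Field F] (a : Fˣ) : ℕ :=
  (squares F).relIndex (normGroup a)

/-- the characteristic is not two, `F*/F*²` is finite, and all norm groups of quadratic extensions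
have at most `N` classes modulo squares -/
def NormsAtMost (F : Type) [Field F] (N : ℕ) : Prop :=
  (2 : F) ≠ 0 ∧ (squares F).index ≠ 0 ∧ ∀ a : Fˣ, a ∉ squares F → classes a ≤ N

/-- the quaternionic structure of `F` is of elementary type -/
def ElementaryType (F : Type) [Field F] : Prop := ∃ S : QData, Elem S ∧ IsStructureOf F S

/-- the quaternionic structure of `F` is a group extension -/
def IsExtension (F : Type) [Field F] : Prop :=
  ∃ T : QData, IsQuat T ∧ 2 * Nat.card T.G = (squares F).index ∧ IsStructureOf F (ext T)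

theorem result :
    -- exponent three
    (∀ (F : Type) [Field F], (2 : F) ≠ 0 → 2 < (squares F).index →
      (∀ a : Fˣ, a ∉ squares F → classes a ^ 3 < (squares F).index) → IsExtension F) ∧
    -- exponent two if there is a small norm group
    (∀ (F : Type) [Field F], (2 : F) ≠ 0 → (squares F).index ≠ 0 → ∀ x : Fˣ, x ∉ squares F →
      -x ∉ squares F → (∀ a : Fˣ, a ∉ squares F → 8 * classes a ^ 2 < (squares F).index ∧
        classes x ^ 3 * classes a ^ 2 ≤ 4 * (squares F).index) → IsExtension F) ∧
    ∀ N : ℕ, 2 ≤ N →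
      -- the structure of the field is an iterated group extension of a small structure
      (∀ (F : Type) [Field F], NormsAtMost F N →
        ∃ (T : QData) (k : ℕ), IsQuat T ∧ Finite T.G ∧ Nat.card T.G ≤ N ^ 3 ∧
          IsStructureOf F (ext^[k] T)) ∧
      -- if there are more than `2 N³` square classes there is a valuation
      (∀ (F : Type) [Field F], NormsAtMost F N → 2 * N ^ 3 < (squares F).index →
        ∃ O : ValuationSubring F,
          (∀ x : F, x ∈ O → x⁻¹ ∉ O → IsSquare (1 + x)) ∧
          NormsAtMost (IsLocalRing.ResidueField O) N ∧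
          (squares (IsLocalRing.ResidueField O)).index ≤ 2 * N ^ 3 ∧
          ∃ (T : QData) (k : ℕ), 1 ≤ k ∧
            2 ^ k * (squares (IsLocalRing.ResidueField O)).index = (squares F).index ∧
            IsStructureOf (IsLocalRing.ResidueField O) T ∧ IsStructureOf F (ext^[k] T)) ∧
      -- reduction of the weak conjecture
      ((∀ (F : Type) [Field F], NormsAtMost F N → (squares F).index ≤ 2 * N ^ 3 →
          ElementaryType F) →
        ∀ (F : Type) [Field F], NormsAtMost F N → ElementaryType F) := by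
  have hext : ∀ (F : Type) [Field F] (S : QData), IsStructureOf F S → Finite S.G → IsQuat S →
      Nat.card S.G = (squares F).index → (∃ b : S.G, Bi S b) → IsExtension F := by
    intro F _ S hS hf h hc ⟨b, hb⟩
    obtain ⟨T, hT, -, hTc, hi, -⟩ := bi_ext h hb
    refine ⟨T, hT, hTc.trans hc, structure_iso hS (iso_symm hi) ?_⟩
    exact ext_one (q_one hT 1) 1
  have h1 : ∀ (F : Type) [Field F], (2 : F) ≠ 0 → 2 < (squares F).index →
      (∀ a : Fˣ, a ∉ squares F → classes a ^ 3 < (squares F).index) → IsExtension F := by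
    intro F _ h2 hi hs
    obtain ⟨S, hS, hf, h, hc, φ, hsur, hn, hk, hvs⟩ :=
      field_data h2 (show (sqG F).index ≠ 0 from fun e => by
        have e' : (squares F).index = 0 := e
        omega)
    have hc' : Nat.card S.G = (squares F).index := hc
    refine hext F S hS hf h hc (exists_bi3 h (by rw [hc']; exact hi) fun g hg => ?_)
    obtain ⟨a, rfl⟩ := hsur g
    rw [hvs, hc']
    exact hs a fun ha => hg ((hk a).2 ha)
  have h2 : ∀ (F : Type) [Field F], (2 : F) ≠ 0 → (squares F).index ≠ 0 → ∀ x : Fˣ,
      x ∉ squares F →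
      -x ∉ squares F → (∀ a : Fˣ, a ∉ squares F → 8 * classes a ^ 2 < (squares F).index ∧
        classes x ^ 3 * classes a ^ 2 ≤ 4 * (squares F).index) → IsExtension F := by
    intro F _ h2 hfin x hx hxn hs
    obtain ⟨S, hS, hf, h, hc, φ, hsur, hn, hk, hvs⟩ := field_data h2 hfin
    have hc' : Nat.card S.G = (squares F).index := hc
    refine hext F S hS hf h hc (exists_bi_small h (x := φ x) (fun e => hx ((hk x).1 e)) ?_ ?_ ?_)
    · intro e
      apply hxn
      have h3 : φ (-x) = 1 := by
        have : -x = -1 * x := by rw [neg_one_mul]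
        rw [this, map_mul, hn, e, h.exp2]
      exact (hk _).1 h3
    · intro g hg
      obtain ⟨a, rfl⟩ := hsur g
      rw [hvs, hc']
      exact (hs a fun ha => hg ((hk a).2 ha)).1
    · intro g hg
      obtain ⟨a, rfl⟩ := hsur g
      rw [hvs, hvs, hc']
      exact (hs a fun ha => hg ((hk a).2 ha)).2
  refine ⟨h1, h2, ?_⟩
  intro N hN
  have hval : ∀ (F : Type) [Field F], NormsAtMost F N → 2 * N ^ 3 < (squares F).index →
      ∃ O : ValuationSubring F,
        (∀ x : F, x ∈ O → x⁻¹ ∉ O → IsSquare (1 + x)) ∧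
        NormsAtMost (IsLocalRing.ResidueField O) N ∧
        (squares (IsLocalRing.ResidueField O)).index ≤ 2 * N ^ 3 ∧
        ∃ (T : QData) (k : ℕ), 1 ≤ k ∧
          2 ^ k * (squares (IsLocalRing.ResidueField O)).index = (squares F).index ∧
          IsStructureOf (IsLocalRing.ResidueField O) T ∧ IsStructureOf F (ext^[k] T) := by
    intro F _ hF hlarge
    obtain ⟨h2, hfin, hsmall⟩ := hF
    obtain ⟨O, hO, hOc, k, T, hk1, hk, hT, hTF⟩ := reduce3 Pool.Agent.Y620.ET.t_RES h2 hN hfin
      hsmall hlarge
    exact ⟨O, hO.sqr.2.2, ⟨hO.two, hO.fin, hO.small⟩, hOc, T, k, hk1, hk, hT, hTF⟩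
  refine ⟨?_, hval, ?_⟩
  · intro F _ hF
    obtain ⟨h2, hfin, hsmall⟩ := hF
    obtain ⟨S, hS, hf, h, hc, φ, hsur, hn, hk, hvs⟩ := field_data h2 hfin
    have hvs' : ∀ g : S.G, g ≠ 1 → vs S g ≤ N := by
      intro g hg
      obtain ⟨a, rfl⟩ := hsur g
      rw [hvs]
      exact hsmall a fun ha => hg ((hk a).2 ha)
    obtain ⟨T, k, hT, hTf, hTc, -, -, hTi⟩ := iter3 hN _ S h hf le_rfl hvs'
    exact ⟨T, k, hT, hTf, hTc, structure_iso hS (iso_symm hTi) (ext_one (q_one hT 1) k)⟩
  · intro hsm F _ hF
    by_cases hlarge : (squares F).index ≤ 2 * N ^ 3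
    · exact hsm F hF hlarge
    push Not at hlarge
    obtain ⟨O, -, hκ, hκc, T, k, -, -, hT, hTF⟩ := hval F hF hlarge
    obtain ⟨R, hR, hRs⟩ := hsm _ hκ hκc
    have hTE : Elem T := Elem.iso _ _ hR (iso_of_structure hRs hT)
    exact ⟨_, elem_iter hTE k, hTF⟩

end Pool.Agent.Results.MP_2429c0_al.CubicBound
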