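import Mathlib
import Pool.Agent.Q6.EV.Final2
import Pool.Agent.TH673.VG.FieldInd

set_option autoImplicit false

/-!
# Fields whose norm groups have equal indices (MP_2429c0_al)

Let `F` be a field of characteristic `≠ 2` with finitely many square classes, let `N(a)` be the
group of the nonzero values of `x² - a y²` (the norm group of `F(√a)`, if `a` is not a square), and
let `R = ⋂ N(b)` be the radical of Kaplansky. If all norm groups `N(a) ≠ F*` have the same index in
`F*`, then the quaternionic structure of `F` is of elementary type. More precisely, either any two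
quaternion division algebras over `F` are isomorphic, or `R` has index two in every `N(a) ≠ F*`.

The proof is a counting argument in the quaternionic structure of `F`; see the file
`EqualValueGroups` of MP_d26ff6_al.
-/

namespace Pool.Agent.Results.MP_2429c0_al.EqualNormGroups

open scoped Quaternion
open Pool.Agent.H315R3.ETC Pool.Agent.TH188.ET Pool.Agent.TH673.VG

/-- **Fields whose norm groups of quadratic extensions have equal indices are of elementary
type.** -/
theorem result {F : Type*} [Field F] (h2 : (2 : F) ≠ 0) (hfin : FinSq F)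
    (heq : ∀ a b : Fˣ, normGroup a ≠ ⊤ → normGroup b ≠ ⊤ →
      (normGroup a).index = (normGroup b).index) :
    (∃ S : QData, Elem S ∧ IsStructureOf F S) ∧
    ((∀ a b c d : Fˣ, c ∉ normGroup a → d ∉ normGroup b →
        Nonempty (ℍ[F,(a : F),0,(c : F)] ≃ₐ[F] ℍ[F,(b : F),0,(d : F)])) ∨
      ∀ a : Fˣ, normGroup a ≠ ⊤ → (⨅ b : Fˣ, normGroup b).relIndex (normGroup a) = 2) := by
  obtain ⟨S, hS, hSfin, hSq, -, -⟩ := field_core h2 hfin
  obtain ⟨φ, hs, hk, hn, h0, hq⟩ := id hS
  have hz : ∀ a b : Fˣ, S.q (φ a) (φ b) = S.zero ↔ NormFrom a b := by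
    intro a b
    rw [← qiso_one h2, ← h0, ← map_one φ]
    exact hq a b 1 1
  have hcomap : ∀ a : Fˣ, (D hSq (φ a)).comap φ = normGroup a := by
    intro a
    ext x
    rw [Subgroup.mem_comap]
    exact hz a x
  have hidx : ∀ a : Fˣ, (D hSq (φ a)).index = (normGroup a).index := by
    intro a
    rw [← hcomap a, Subgroup.index_comap_of_surjective _ hs]
  have hrad : ∀ a : Fˣ, φ a ∉ Pool.Agent.Q6.EV.Rad hSq ↔ normGroup a ≠ ⊤ := by
    intro a
    rw [Ne, ← Subgroup.index_eq_one, ← hidx a, Subgroup.index_eq_one, Pool.Agent.Q6.EV.mem_Rad,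
      eq_top_iff]
    exact not_congr ⟨fun h x _ => h x, fun h x => h (Subgroup.mem_top x)⟩
  obtain ⟨h1, h3⟩ := Pool.Agent.Q6.EV.main hSq hSfin (by
    intro a b ha hb
    obtain ⟨a, rfl⟩ := hs a
    obtain ⟨b, rfl⟩ := hs b
    rw [hidx, hidx]
    exact heq a b ((hrad a).1 ha) ((hrad b).1 hb))
  refine ⟨⟨S, h1, hS⟩, ?_⟩
  rcases h3 with ⟨t, ht⟩ | h3
  · left
    intro a b c d hc hd
    rw [← hq a c b d]
    have e1 : S.q (φ a) (φ c) ≠ S.zero := fun e => hc ((hz a c).1 e)
    have e2 : S.q (φ b) (φ d) ≠ S.zero := fun e => hd ((hz b d).1 e)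
    rw [(ht _ _).resolve_left e1, (ht _ _).resolve_left e2]
  · right
    intro a ha
    have hR : (⨅ b : Fˣ, normGroup b) = (Pool.Agent.Q6.EV.Rad hSq).comap φ := by
      ext x
      rw [Subgroup.mem_iInf, Subgroup.mem_comap, Pool.Agent.Q6.EV.mem_Rad]
      constructor
      · intro h y
        obtain ⟨b, rfl⟩ := hs y
        rw [hSq.qs2]
        exact (hz b x).2 (h b)
      · intro h b
        exact (hz b x).1 (by rw [hSq.qs2]; exact h (φ b))
    rw [hR, Subgroup.relIndex_comap, ← hcomap a, Subgroup.map_comap_eq_self_of_surjective hs]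
    have hle : Pool.Agent.Q6.EV.Rad hSq ≤ D hSq (φ a) := by
      intro r hr
      change S.q (φ a) r = S.zero
      rw [hSq.qs2]
      exact hr (φ a)
    have e1 := h3 (φ a) ((hrad a).2 ha)
    have e2 := Subgroup.relIndex_mul_index hle
    have e3 := (D hSq (φ a)).card_mul_index
    have e4 := (Pool.Agent.Q6.EV.Rad hSq).card_mul_index
    rw [← e2, ← e3, e1] at e4
    have hpos : 0 < Nat.card (Pool.Agent.Q6.EV.Rad hSq) * (D hSq (φ a)).index :=
      Nat.mul_pos Nat.card_pos (Nat.pos_of_ne_zero Subgroup.FiniteIndex.index_ne_zero)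
    refine Nat.eq_of_mul_eq_mul_left hpos ?_
    calc Nat.card (Pool.Agent.Q6.EV.Rad hSq) * (D hSq (φ a)).index *
          (Pool.Agent.Q6.EV.Rad hSq).relIndex (D hSq (φ a)) =
        Nat.card (Pool.Agent.Q6.EV.Rad hSq) *
          ((Pool.Agent.Q6.EV.Rad hSq).relIndex (D hSq (φ a)) * (D hSq (φ a)).index) := by ring
      _ = 2 * Nat.card (Pool.Agent.Q6.EV.Rad hSq) * (D hSq (φ a)).index := e4
      _ = _ := by ring

end Pool.Agent.Results.MP_2429c0_al.EqualNormGroups
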