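import Mathlib
import Pool.Agent.Q10.ETC3.Field

set_option autoImplicit false

/-! # MP_2429c0_al: fields whose norm groups have at most four classes modulo squares

The basic result is `MP_d26ff6_al/FourElements`: a finite quaternionic structure whose value groups
`V(a)`, `a ≠ 1`, have at most four elements is of elementary type. -/

namespace Pool.Agent.Results.MP_2429c0_al.FourClasses

open Pool.Agent.H315R3.ETC Pool.Agent.TH188.ET Pool.Agent.Y920.ETC Pool.Agent.Q10.ETC3

/-- the group of squares of `F*` -/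
def squares (F : Type) [Field F] : Subgroup Fˣ := (powMonoidHom 2 : Fˣ →* Fˣ).range

/-- the group of the nonzero values of `x² - a y²`: the norm group of `F(√a)` if `a` is not a
square -/
def normGroup {F : Type} [Field F] (a : Fˣ) : Subgroup Fˣ where
  carrier := {c | ∃ x y : F, (c : F) = x ^ 2 - a * y ^ 2}
  one_mem' := (nG a).one_mem
  mul_mem' := (nG a).mul_mem
  inv_mem' := (nG a).inv_mem

theorem result (F : Type) [Field F] (h2 : (2 : F) ≠ 0) (hfin : (squares F).index ≠ 0)
    (h4 : ∀ a : Fˣ, a ∉ squares F → (squares F).relIndex (normGroup a) ≤ 4) :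
    (∃ S : QData, Elem S ∧ IsStructureOf F S) ∧
    ∃ (T : QData) (k : ℕ), IsQuat T ∧ Finite T.G ∧ Nat.card T.G ≤ 16 ∧
      2 ^ k * Nat.card T.G = (squares F).index ∧ IsStructureOf F (ext^[k] T) := by
  obtain ⟨S, hS, hf, h, hc, φ, hsur, hn, hk, hvs⟩ := field_data h2 hfin
  have hvs' : ∀ g : S.G, g ≠ 1 → vs S g ≤ 4 := by
    intro g hg
    obtain ⟨a, rfl⟩ := hsur g
    rw [hvs]
    exact h4 a fun ha => hg ((hk a).2 ha)
  obtain ⟨T, k, hT, hTf, hTc, hTk, hTN, hTi⟩ := iter4 _ S h hf le_rfl hvs'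
  have hst := structure_iso hS (iso_symm hTi) (ext_one (q_one hT 1) k)
  refine ⟨⟨_, elem_iterate (elem_small hT (by omega)) k, hst⟩, T, k, hT, hTf, hTc, ?_, hst⟩
  rw [hTk]
  exact hc

end Pool.Agent.Results.MP_2429c0_al.FourClasses
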