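import Pool.Agent.TH188.ET.FieldSmall
import Pool.Agent.Q24.EQ.Core

/-!
# Fields with at most sixteen quaternion algebras (MP_2429c0_al)

Let `F` be a field of characteristic `≠ 2` with finitely many square classes, and let `N(a)` be the
group of the nonzero values of `x² - a y²`.  If there are at most sixteen quaternion algebras over
`F` up to isomorphism, then the quaternionic structure of `F` is of elementary type.  The same holds
if `N(b) N(ab)` has index at most two in `F*` for all `a`, `b` such that the index of `N(a)` is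
greater than four, and if any two of the groups `{a, F*}` of symbols generate a subgroup with at
most sixteen elements of `K_2(F)/2`.
-/

set_option autoImplicit false

namespace Pool.Agent.Results.MP_2429c0_al.SixteenQuaternionAlgebras

open scoped Quaternion
open Pool.Agent.H315R3.ETC Pool.Agent.TH188.ET Pool.Agent.TH188.ETF Pool.Agent.Q24.EQ

/-- the group of the nonzero values of the norm form `x² - a y²` -/
def normGroup {F : Type*} [Field F] (a : Fˣ) : Subgroup Fˣ where
  carrier := {c | NormFrom a c}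
  one_mem' := NormFrom.one a
  mul_mem' := NormFrom.mul
  inv_mem' := NormFrom.inv

/-- `{a, F*}`: the subgroup of `K_2(F)/2` generated by all symbols `{a,b}`, `b ∈ F*` -/
def QGroup {F : Type*} [Field F] (a : Fˣ) : AddSubgroup (K2 F) :=
  AddSubgroup.closure (Set.range (sy a))

theorem biSym_of_neg {F : Type*} [Field F] {B : Type*} [AddCommGroup B] (β : Fˣ → Fˣ → B)
    (two : ∀ b : B, b + b = 0) (mul : ∀ a b c, β a (b * c) = β a b + β a c)
    (mul' : ∀ a b c, β (a * b) c = β a c + β b c) (neg : ∀ c, β c (-c) = 0) : BiSym β where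
  two := two
  symm := by
    intro a b
    have h3 := neg (a * b)
    have e1 : β a (-(a * b)) = β a b := by
      have : (-(a * b) : Fˣ) = (-a) * b := by rw [neg_mul]
      rw [this, mul, neg, zero_add]
    have e2 : β b (-(a * b)) = β b a := by
      have : (-(a * b) : Fˣ) = a * (-b) := by rw [mul_neg]
      rw [this, mul, neg, add_zero]
    rw [mul', e1, e2] at h3
    have h4 := two (β b a)
    rw [← h4] at h3
    exact add_right_cancel h3
  mul := mul

theorem biSym_bq {F : Type*} [Field F] (h2 : (2 : F) ≠ 0) : BiSym (bq (F := F) h2) := by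
  refine biSym_of_neg _ B2_add_self (bq_mul h2) (bq_mul_left h2) fun c => ?_
  rw [bq_eq_zero_iff]
  refine ⟨0, 1, ?_⟩
  push_cast
  ring

theorem biSym_sy {F : Type*} [Field F] : BiSym (sy (F := F)) :=
  biSym_of_neg _ K2_add_self sy_mul_right sy_mul_left sy_neg_self

/-- the index of the norm group -/
theorem index_normGroup {F : Type*} [Field F] (h2 : (2 : F) ≠ 0) (p : Fˣ) :
    (normGroup p).index = Nat.card (VV (bq h2) p) := by
  obtain ⟨f, hf1, -, hf3⟩ := Pool.Agent.TH188.ETV.card_Qs (bq h2) (bq_mul h2) p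
  have h1 : f.ker = Subgroup.toAddSubgroup (normGroup p) := by
    ext b
    rw [AddMonoidHom.mem_ker]
    have : f b = bq h2 p b.toMul := hf1 b.toMul
    rw [this, bq_eq_zero_iff]
    exact Iff.rfl
  rw [h1] at hf3
  exact hf3

theorem index_ne_zero {F : Type*} [Field F] (hfin : FinSq F) (p : Fˣ) :
    (normGroup p).index ≠ 0 := by
  have h1 : (powMonoidHom 2 : Fˣ →* Fˣ).range ≤ normGroup p := by
    rintro _ ⟨c, rfl⟩
    refine ⟨c, 0, ?_⟩
    rw [powMonoidHom_apply, Units.val_pow_eq_pow_val]
    ring
  have h3 : Finite (Fˣ ⧸ (powMonoidHom 2 : Fˣ →* Fˣ).range) := hfin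
  have h4 : (powMonoidHom 2 : Fˣ →* Fˣ).range.index ≠ 0 := Subgroup.index_ne_zero_of_finite
  exact fun h0 => h4 (Nat.eq_zero_of_zero_dvd (h0 ▸ Subgroup.index_dvd_of_le h1))

theorem elem_of_almost {F : Type*} [Field F] (h2 : (2 : F) ≠ 0) (hfin : FinSq F)
    (h : ∀ a, 4 < Nat.card (VV (bq h2) a) → ∀ d, Almost (VV (bq h2) a) (VV (bq h2) d)) :
    ∃ S : QData, Elem S ∧ IsStructureOf F S :=
  elem_of_br h2 hfin fun x y z => small_of_almost (biSym_bq h2) h x y z

/-- **Fields with at most sixteen quaternion algebras are of elementary type.** -/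
theorem result {F : Type*} [Field F] (h2 : (2 : F) ≠ 0) (hfin : FinSq F) :
    -- at most sixteen quaternion algebras up to isomorphism
    ((∃ t : Fin 16 → Fˣ × Fˣ, ∀ a b : Fˣ, ∃ i : Fin 16,
        Nonempty (ℍ[F,(a : F),0,(b : F)] ≃ₐ[F] ℍ[F,((t i).1 : F),0,((t i).2 : F)])) →
      ∃ S : QData, Elem S ∧ IsStructureOf F S) ∧
    -- products of two norm groups
    ((∀ a : Fˣ, 4 < (normGroup a).index →
        ∀ b : Fˣ, (normGroup b ⊔ normGroup (a * b)).index ≤ 2) →
      ∃ S : QData, Elem S ∧ IsStructureOf F S) ∧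
    -- sums of two groups of symbols
    ((∀ a b : Fˣ, Nat.card (QGroup a ⊔ QGroup b : AddSubgroup (K2 F)) ≤ 16) →
      ∃ S : QData, Elem S ∧ IsStructureOf F S) := by
  have hB := biSym_bq (F := F) h2
  refine ⟨?_, ?_, ?_⟩
  · rintro ⟨t, ht⟩
    have hsub : Set.range (fun x : Fˣ × Fˣ => bq h2 x.1 x.2) ⊆
        Set.range (fun i : Fin 16 => bq h2 (t i).1 (t i).2) := by
      rintro _ ⟨⟨a, b⟩, rfl⟩
      obtain ⟨i, hi⟩ := ht a b
      exact ⟨i, ((bq_eq_iff h2 _ _ _ _).2 hi).symm⟩
    have hf : (Set.range (fun i : Fin 16 => bq h2 (t i).1 (t i).2)).Finite := Set.finite_range _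
    refine elem_of_almost h2 hfin (almost_of_values hB (hf.subset hsub) ?_)
    refine (Set.ncard_le_ncard hsub hf).trans ?_
    rw [← Set.image_univ]
    refine (Set.ncard_image_le Set.finite_univ).trans ?_
    rw [Set.ncard_univ, Nat.card_eq_fintype_card, Fintype.card_fin]
  · intro h
    refine elem_of_almost h2 hfin ?_
    intro a ha d u hu v hv
    rw [← index_normGroup] at ha
    have hN := h a ha d
    obtain ⟨s, rfl⟩ := hB.mem.1 hu
    obtain ⟨t, rfl⟩ := hB.mem.1 hv
    have key : ∀ c ∈ normGroup d ⊔ normGroup (a * d), bq h2 d c ∈ VV (bq h2) a := by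
      intro c hc
      obtain ⟨v, hv, w, hw, rfl⟩ := Subgroup.mem_sup.1 hc
      have e1 : bq h2 d v = 0 := (bq_eq_zero_iff h2 d v).2 hv
      have e2 : bq h2 (a * d) w = 0 := (bq_eq_zero_iff h2 (a * d) w).2 hw
      rw [bq_mul_left] at e2
      have e3 : bq h2 d w = bq h2 a w := by
        have h4 := B2_add_self (bq h2 d w)
        rw [← h4] at e2
        exact (add_right_cancel e2).symm
      rw [bq_mul, e1, zero_add, e3]
      exact hB.val _ _
    have hne : (normGroup d ⊔ normGroup (a * d)).index ≠ 0 :=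
      fun h0 => index_ne_zero hfin d
        (Nat.eq_zero_of_zero_dvd (h0 ▸ Subgroup.index_dvd_of_le le_sup_left))
    have h12 : (normGroup d ⊔ normGroup (a * d)).index = 1 ∨
        (normGroup d ⊔ normGroup (a * d)).index = 2 := by omega
    rcases h12 with h1 | h1
    · left
      apply key
      rw [Subgroup.index_eq_one] at h1
      rw [h1]
      exact Subgroup.mem_top _
    · by_cases hs : s ∈ normGroup d ⊔ normGroup (a * d)
      · exact Or.inl (key s hs)
      by_cases ht : t ∈ normGroup d ⊔ normGroup (a * d)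
      · exact Or.inr (Or.inl (key t ht))
      right; right
      rw [← bq_mul]
      apply key
      rw [Subgroup.mul_mem_iff_of_index_two h1]
      exact ⟨fun h => absurd h hs, fun h => absurd h ht⟩
  · intro h
    refine elem_of_br h2 hfin fun x y z => small_of_K2 h2 hfin x y z ?_
    refine small_of_almost biSym_sy (almost_of_pairs biSym_sy ?_ h) x y z
    intro a b
    have h1 : Finite (VV (sy (F := F)) a) := finite_Qs hfin a
    have h3 : Finite (VV (sy (F := F)) b) := finite_Qs hfin b
    exact finite_sup _ _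

end Pool.Agent.Results.MP_2429c0_al.SixteenQuaternionAlgebras
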